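import Pool.Agent.TH829.Kim.Main

/-!
# Kimura finite-dimensionality can be checked modulo the prime adequate equivalence relations

`𝒱` is a class of smooth projective geometrically irreducible varieties over the field `k` closed
under products (for the problem: all smooth projective varieties over `k = ℂ`), `C` the Chow groups
with rational coefficients (in the form of their formal properties, `IsChowProj`), and the rings
`A(X)` are not zero.

An adequate equivalence relation `P` (`IsAdequate`: graded subspaces of the `A(X)`, stable under
pull-backs, push-forwards and products) is called prime (`IsPrime`) if no fundamental class is
equivalent to zero and an external product `x × y` of homogeneous classes is equivalent to zero only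
if `x` or `y` is. Numerical equivalence is an example.

`IsKimuraFinite C I X` says that the motive `h(X)` is finite-dimensional in the sense of Kimura in
the category of motives modulo the adequate relation `I`: there is a self-correspondence `e` of
degree zero, idempotent modulo `I`, such that some exterior power `Λ^n (X, e)` and some symmetric
power `Sym^m (X, 1 - e)` vanish modulo `I`. For rational equivalence (`ratFam C`) this is the
property of the problem.

Theorem. The Chow motive `h(X)` is finite-dimensional in the sense of Kimura if and only if it is so
modulo each prime adequate equivalence relation.

The decompositions of `h(X)` modulo the various prime relations are not assumed to be related.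
Steps of the proof: (1) for a prime `P` let `f` be the projector onto the even part modulo `P`, and
`e` a lift of the one modulo numerical equivalence. A composition of a morphism from an even to an
odd motive with one in the other direction is nilpotent with trace zero (theorem of Cayley and
Hamilton, and the dimension of an even (odd) motive is a natural number (the negative of one)); so
`e - f` is numerically trivial. (2) Modulo `P` numerically trivial endomorphisms of `h(X)` are
nilpotent (theorem of Nagata and Higman), so `e ∘ e - e` is nilpotent modulo each prime `P`. (3) By
Zorn's lemma `e ∘ e - e` is nilpotent, so `e` can be modified to an idempotent, conjugate to `f`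
modulo each `P`. (4) If no exterior power of the motive `(X, e)` vanishes then by Zorn's lemma and
the development of Laplace there is a prime `P` with this property modulo `P`, a contradiction;
similarly for the symmetric powers of `(X, 1 - e)`.
-/

open CategoryTheory AlgebraicGeometry

set_option autoImplicit false

universe u v

namespace Pool.Agent.Results.MP_868bb7_ag.PrimeByPrime

open Pool.Agent.H914 Pool.Agent.W492.BB Pool.Agent.TH133 Pool.Agent.TH829.Prime
  Pool.Agent.TH829.Kim

/-- The Chow motive of `X` is finite-dimensional in the sense of Kimura if and only if the motive of
`X` is finite-dimensional in the sense of Kimura modulo each prime adequate equivalence relation. -/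
theorem result {k : Type u} [Field k] {𝒱 : VarClass k} (C : TheoryData.{u, v, 0} 𝒱 ℚ)
    [IsChowProj C] (hne : ∀ X : 𝒱.Obj, (1 : C.A X) ≠ 0) (X : 𝒱.Obj) :
    IsKimuraFinite C (ratFam C) X ↔ ∀ P : Family C, IsPrime C P → IsKimuraFinite C P X :=
  kimura_iff hne X

end Pool.Agent.Results.MP_868bb7_ag.PrimeByPrime
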